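import Pool.Agent.LE.StmtsH

/-!
# Squad LCH, module WTE: smoothed spectral measures and eigenfunctions
-/

set_option autoImplicit false

open MeasureTheory ProbabilityTheory Function Filter

open scoped ENNReal BigOperators InnerProductSpace Topology ComplexConjugate

noncomputable section

namespace Pool.Agent.LE.CH.H39

open Pool.Agent.Anderson Pool.Agent.Loc Pool.Agent.Mob Pool.Agent.Helper54.Bal

variable {d : ℕ}

/-- the resolvent at an eigenfunction -/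
theorem G_eigen {V : Site d → ℝ} {z : ℂ} (hz : z.im ≠ 0) {E₀ : ℝ} {φ : L2 d}
    (hφ : IsEigen V E₀ φ) : G V z φ = ((E₀ : ℂ) - z)⁻¹ • φ := by
  have hne : (E₀ : ℂ) - z ≠ 0 := by
    intro h
    apply hz
    have h1 := congrArg Complex.im h
    simp only [Complex.sub_im, Complex.ofReal_im, Complex.zero_im] at h1
    linarith
  symm
  apply G_unique hz
  intro x
  have h1 : lap (((E₀ : ℂ) - z)⁻¹ • φ : L2 d) x = ((E₀ : ℂ) - z)⁻¹ * lap φ x := by
    unfold lap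
    rw [Finset.mul_sum]
    apply Finset.sum_congr rfl
    intro i _
    simp only [lp.coeFn_smul, Pi.smul_apply, smul_eq_mul]
    ring
  rw [h1]
  simp only [lp.coeFn_smul, Pi.smul_apply, smul_eq_mul]
  have h2 : lap φ x = (E₀ : ℂ) * φ x - (V x : ℂ) * φ x := by
    rw [← hφ x]
    ring
  rw [h2]
  field_simp
  ring

theorem normSq_sub_zz (η E E₀ : ℝ) : ‖(E₀ : ℂ) - zz η E‖ ^ 2 = (E - E₀) ^ 2 + η ^ 2 := by
  rw [← Complex.normSq_eq_norm_sq, Complex.normSq_apply]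
  simp
  ring

/-- the Poisson kernel: integrability, the integral over an interval and over its complement -/
theorem poisson_facts {η s : ℝ} (hη : 0 < η) (hs : 0 < s) (E₀ : ℝ) :
    Integrable (fun E : ℝ => η / ((E - E₀) ^ 2 + η ^ 2)) ∧
    ∫ E in Set.Ioo (E₀ - s) (E₀ + s), η / ((E - E₀) ^ 2 + η ^ 2) = 2 * Real.arctan (s / η) ∧
    ∫ E in (Set.Ioo (E₀ - s) (E₀ + s))ᶜ, η / ((E - E₀) ^ 2 + η ^ 2) =
      Real.pi - 2 * Real.arctan (s / η) := by
  obtain ⟨h1, h2⟩ := integral_poisson hη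
  have hi : Integrable (fun E : ℝ => η / ((E - E₀) ^ 2 + η ^ 2)) := h1.comp_sub_right E₀
  have ht : ∫ E : ℝ, η / ((E - E₀) ^ 2 + η ^ 2) = Real.pi := by
    rw [← h2]
    exact integral_sub_right_eq_self (fun E : ℝ => η / (E ^ 2 + η ^ 2)) E₀
  have hI : ∫ E in Set.Ioo (E₀ - s) (E₀ + s), η / ((E - E₀) ^ 2 + η ^ 2) =
      2 * Real.arctan (s / η) := by
    have hle : E₀ - s ≤ E₀ + s := by linarith
    have hd : ∀ x ∈ Set.uIcc (E₀ - s) (E₀ + s),
        HasDerivAt (fun E : ℝ => Real.arctan ((E - E₀) / η)) (η / ((x - E₀) ^ 2 + η ^ 2)) x := by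
      intro x _
      have h3 : HasDerivAt (fun E : ℝ => (E - E₀) / η) (1 / η) x :=
        ((hasDerivAt_id x).sub_const E₀).div_const η
      have h4 := h3.arctan
      have h5 : 1 / (1 + ((x - E₀) / η) ^ 2) * (1 / η) = η / ((x - E₀) ^ 2 + η ^ 2) := by
        have h6 : (x - E₀) ^ 2 + η ^ 2 ≠ 0 := by positivity
        field_simp
        ring
      rw [← h5]
      exact h4
    have h7 := intervalIntegral.integral_eq_sub_of_hasDerivAt hd
      (hi.intervalIntegrable)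
    rw [← integral_Ioc_eq_integral_Ioo, ← intervalIntegral.integral_of_le hle, h7]
    have h8 : (E₀ + s - E₀) / η = s / η := by ring
    have h9 : (E₀ - s - E₀) / η = -(s / η) := by ring
    rw [h8, h9, Real.arctan_neg]
    ring
  refine ⟨hi, hI, ?_⟩
  have h3 := integral_add_compl (measurableSet_Ioo (a := E₀ - s) (b := E₀ + s)) hi
  rw [hI, ht] at h3
  linarith

/-- WTE -/
theorem wte : WteStmt := by
  intro d V S η s E₀ φ hη hs hφ
  have hz : ∀ E : ℝ, (zz η E).im ≠ 0 := fun E => by rw [zz_im]; exact hη.ne'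
  obtain ⟨hi, hI, hC⟩ := poisson_facts hη hs E₀
  have hp := Real.pi_pos
  have hpos : ∀ E : ℝ, 0 < (E - E₀) ^ 2 + η ^ 2 := fun E => by positivity
  refine ⟨?_, ?_⟩
  · intro hS
    have hsub : S ⊆ (Set.Ioo (E₀ - s) (E₀ + s))ᶜ := by
      intro E hE hE'
      have h1 := hS E hE
      have h2 : |E - E₀| < s := by
        rw [abs_lt]
        exact ⟨by linarith [hE'.1], by linarith [hE'.2]⟩
      linarith
    have hpt : ∀ E : ℝ, η / Real.pi * ‖G V (zz η E) φ‖ ^ 2 =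
        ‖φ‖ ^ 2 / Real.pi * (η / ((E - E₀) ^ 2 + η ^ 2)) := by
      intro E
      rw [G_eigen (hz E) hφ, norm_smul, mul_pow, norm_inv, inv_pow, normSq_sub_zz]
      have := (hpos E).ne'
      field_simp
    have hint : ∫ E in (Set.Ioo (E₀ - s) (E₀ + s))ᶜ,
        ‖φ‖ ^ 2 / Real.pi * (η / ((E - E₀) ^ 2 + η ^ 2)) ≤ η / s * ‖φ‖ ^ 2 := by
      rw [integral_const_mul, hC]
      have h1 : Real.arctan (η / s) = Real.pi / 2 - Real.arctan (s / η) := by
        rw [← Real.arctan_inv_of_pos (by positivity : 0 < s / η), inv_div]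
      have h2 : Real.arctan (η / s) ≤ η / s := by
        have h3 : 0 ≤ Real.arctan (η / s) := Real.arctan_nonneg.2 (by positivity)
        have h4 := Real.le_tan h3 (Real.arctan_lt_pi_div_two _)
        rwa [Real.tan_arctan] at h4
      have h3 : Real.pi - 2 * Real.arctan (s / η) ≤ 2 * (η / s) := by linarith
      have h4 : 0 ≤ ‖φ‖ ^ 2 := by positivity
      have h5 : 0 ≤ η / s := by positivity
      calc ‖φ‖ ^ 2 / Real.pi * (Real.pi - 2 * Real.arctan (s / η))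
          ≤ ‖φ‖ ^ 2 / Real.pi * (2 * (η / s)) := by gcongr
        _ = η / s * ‖φ‖ ^ 2 * (2 / Real.pi) := by ring
        _ ≤ η / s * ‖φ‖ ^ 2 * 1 := by
            gcongr
            rw [div_le_one hp]
            exact Real.two_le_pi
        _ = _ := by ring
    calc wt V S η φ ≤ ∫⁻ E in (Set.Ioo (E₀ - s) (E₀ + s))ᶜ,
          ENNReal.ofReal (η / Real.pi * ‖G V (zz η E) φ‖ ^ 2) := lintegral_mono_set hsub
      _ = ∫⁻ E in (Set.Ioo (E₀ - s) (E₀ + s))ᶜ,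
          ENNReal.ofReal (‖φ‖ ^ 2 / Real.pi * (η / ((E - E₀) ^ 2 + η ^ 2))) := by
          simp only [hpt]
      _ = ENNReal.ofReal (∫ E in (Set.Ioo (E₀ - s) (E₀ + s))ᶜ,
          ‖φ‖ ^ 2 / Real.pi * (η / ((E - E₀) ^ 2 + η ^ 2))) := by
          rw [ofReal_integral_eq_lintegral_ofReal (hi.integrableOn.const_mul _)]
          exact Eventually.of_forall fun E => by have := hpos E; positivity
      _ ≤ _ := ENNReal.ofReal_le_ofReal hint
  · intro hηs hsub u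
    have hpt : ∀ E : ℝ, ‖⟪φ, u⟫_ℂ‖ ^ 2 / Real.pi * (η / ((E - E₀) ^ 2 + η ^ 2)) ≤
        ‖φ‖ ^ 2 * (η / Real.pi * ‖G V (zz η E) u‖ ^ 2) := by
      intro E
      have h1 : ⟪φ, G V (zz η E) u⟫_ℂ = ((E₀ : ℂ) - zz η E)⁻¹ * ⟪φ, u⟫_ℂ := by
        have h2 := (isRes_G V).adj (conj (zz η E)) (conj_im_ne (hz E)) φ u
        rw [Complex.conj_conj] at h2
        rw [← h2, G_eigen (conj_im_ne (hz E)) hφ, inner_smul_left]
        congr 1
        rw [map_inv₀, map_sub, Complex.conj_conj, Complex.conj_ofReal]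
      have h2 : ‖⟪φ, G V (zz η E) u⟫_ℂ‖ ≤ ‖φ‖ * ‖G V (zz η E) u‖ := norm_inner_le_norm _ _
      have h3 : ‖⟪φ, G V (zz η E) u⟫_ℂ‖ ^ 2 = ‖⟪φ, u⟫_ℂ‖ ^ 2 / ((E - E₀) ^ 2 + η ^ 2) := by
        rw [h1, norm_mul, mul_pow, norm_inv, inv_pow, normSq_sub_zz]
        ring
      have h4 : ‖⟪φ, u⟫_ℂ‖ ^ 2 / ((E - E₀) ^ 2 + η ^ 2) ≤ ‖φ‖ ^ 2 * ‖G V (zz η E) u‖ ^ 2 := by
        rw [← h3, ← mul_pow]
        gcongr
      calc ‖⟪φ, u⟫_ℂ‖ ^ 2 / Real.pi * (η / ((E - E₀) ^ 2 + η ^ 2))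
          = η / Real.pi * (‖⟪φ, u⟫_ℂ‖ ^ 2 / ((E - E₀) ^ 2 + η ^ 2)) := by ring
        _ ≤ η / Real.pi * (‖φ‖ ^ 2 * ‖G V (zz η E) u‖ ^ 2) := by gcongr
        _ = _ := by ring
    have harc : Real.pi / 4 ≤ Real.arctan (s / η) := by
      rw [← Real.arctan_one]
      exact Real.arctan_le_arctan_iff.2 ((one_le_div hη).2 hηs)
    have hint : ‖⟪φ, u⟫_ℂ‖ ^ 2 / 2 ≤ ∫ E in Set.Ioo (E₀ - s) (E₀ + s),
        ‖⟪φ, u⟫_ℂ‖ ^ 2 / Real.pi * (η / ((E - E₀) ^ 2 + η ^ 2)) := by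
      rw [integral_const_mul, hI]
      calc ‖⟪φ, u⟫_ℂ‖ ^ 2 / 2 = ‖⟪φ, u⟫_ℂ‖ ^ 2 / Real.pi * (2 * (Real.pi / 4)) := by
            field_simp
            norm_num
        _ ≤ _ := by gcongr
    have hfin : ENNReal.ofReal (‖⟪φ, u⟫_ℂ‖ ^ 2 / 2) ≤ ENNReal.ofReal (‖φ‖ ^ 2) * wt V S η u := by
      calc ENNReal.ofReal (‖⟪φ, u⟫_ℂ‖ ^ 2 / 2)
          ≤ ENNReal.ofReal (∫ E in Set.Ioo (E₀ - s) (E₀ + s),
            ‖⟪φ, u⟫_ℂ‖ ^ 2 / Real.pi * (η / ((E - E₀) ^ 2 + η ^ 2))) :=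
            ENNReal.ofReal_le_ofReal hint
        _ = ∫⁻ E in Set.Ioo (E₀ - s) (E₀ + s),
            ENNReal.ofReal (‖⟪φ, u⟫_ℂ‖ ^ 2 / Real.pi * (η / ((E - E₀) ^ 2 + η ^ 2))) := by
            rw [ofReal_integral_eq_lintegral_ofReal (hi.integrableOn.const_mul _)]
            exact Eventually.of_forall fun E => by have := hpos E; positivity
        _ ≤ ∫⁻ E in Set.Ioo (E₀ - s) (E₀ + s),
            ENNReal.ofReal (‖φ‖ ^ 2) * ENNReal.ofReal (η / Real.pi * ‖G V (zz η E) u‖ ^ 2) := by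
            apply lintegral_mono
            intro E
            show ENNReal.ofReal _ ≤ ENNReal.ofReal _ * ENNReal.ofReal _
            rw [← ENNReal.ofReal_mul (by positivity)]
            exact ENNReal.ofReal_le_ofReal (hpt E)
        _ = ENNReal.ofReal (‖φ‖ ^ 2) * ∫⁻ E in Set.Ioo (E₀ - s) (E₀ + s),
            ENNReal.ofReal (η / Real.pi * ‖G V (zz η E) u‖ ^ 2) :=
            lintegral_const_mul' _ _ ENNReal.ofReal_ne_top
        _ ≤ _ := by
            gcongr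
            exact lintegral_mono_set hsub
    calc ENNReal.ofReal (‖⟪φ, u⟫_ℂ‖ ^ 2) = ENNReal.ofReal 2 * ENNReal.ofReal (‖⟪φ, u⟫_ℂ‖ ^ 2 / 2) := by
          rw [← ENNReal.ofReal_mul (by norm_num)]
          congr 1
          ring
      _ ≤ ENNReal.ofReal 2 * (ENNReal.ofReal (‖φ‖ ^ 2) * wt V S η u) := by gcongr
      _ = _ := by
          rw [← mul_assoc, ← ENNReal.ofReal_mul (by norm_num)]

end Pool.Agent.LE.CH.H39
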