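import Pool.Agent.LE.StmtsH
import Pool.Agent.Helper54_Ballistic.Fib

/-!
# Squad LCH, module WTL: the total mass of the smoothed spectral measure
-/

set_option autoImplicit false

open MeasureTheory ProbabilityTheory Function Filter

open scoped ENNReal BigOperators InnerProductSpace Topology

noncomputable section

namespace Pool.Agent.LE.CH.H39

open Pool.Agent.Anderson Pool.Agent.Loc Pool.Agent.Mob Pool.Agent.Helper54.Bal

/-- WTL (no hypothesis is needed). -/
theorem wtl : WtlStmt := by
  intro d V S η u hη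
  have hc : (0 : ℝ) ≤ η / Real.pi := by positivity
  have h2 := (isRes_G V).lintegral_le hη u
  calc wt V S η u ≤ ∫⁻ E : ℝ, ENNReal.ofReal (η / Real.pi * ‖G V (zz η E) u‖ ^ 2) :=
        setLIntegral_le_lintegral _ _
    _ = ∫⁻ E : ℝ, ENNReal.ofReal (η / Real.pi) * ENNReal.ofReal (‖G V (zz η E) u‖ ^ 2) :=
        lintegral_congr fun E => ENNReal.ofReal_mul hc
    _ = ENNReal.ofReal (η / Real.pi) * ∫⁻ E : ℝ, ENNReal.ofReal (‖G V (zz η E) u‖ ^ 2) :=
        lintegral_const_mul' _ _ ENNReal.ofReal_ne_top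
    _ ≤ ENNReal.ofReal (η / Real.pi) * ENNReal.ofReal (Real.pi / η * ‖u‖ ^ 2) := by
        gcongr
    _ = ENNReal.ofReal (‖u‖ ^ 2) := by
        rw [← ENNReal.ofReal_mul hc]
        congr 1
        field_simp

end Pool.Agent.LE.CH.H39
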